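import Mathlib
import Pool.Agent.Helper31.RN.Dual
import Pool.Agent.Helper98.NRC.Half

/-!
# Arcs of size `q`

The definitions (`IsArc`, `stdNRC`, `IsNRC`) are in `Pool/Agent/Helper98/NRC/Basic.lean`.
-/

open scoped LinearAlgebra.Projectivization

namespace Pool.Agent.Results.MP_8a9ebc_co.ArcsOfSizeQ

open Pool.Agent.Helper98.NRC

/-- Let `K` be a finite field with `q` elements and characteristic `ℓ`, and `3 ≤ k < q`.  If
`k ≤ ℓ` and `k ≤ (q - 2) / 2`, or if `q - k ≤ ℓ` and `k ≥ (q + 2) / 2`, then every arc with `q`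
points of `PG(k-1, q)` is contained in a normal rational curve. -/
theorem result (K : Type*) [Field K] [Fintype K] (ℓ : ℕ) [CharP K ℓ] (k : ℕ) (h3 : 3 ≤ k)
    (hk : k < Fintype.card K)
    (h : (k ≤ ℓ ∧ 2 * k + 2 ≤ Fintype.card K) ∨
      (Fintype.card K ≤ k + ℓ ∧ Fintype.card K + 2 ≤ 2 * k))
    (A : Set (ℙ K (Fin k → K))) (hA : IsArc A) (hAc : A.ncard = Fintype.card K) :
    ∃ C : Set (ℙ K (Fin k → K)), IsNRC C ∧ A ⊆ C := by
  rcases h with ⟨h1, h2⟩ | ⟨h1, h2⟩
  · exact Pool.Agent.Helper31.RN.arc_rational h3 h1 h2 A hA hAc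
  · rcases Nat.lt_or_ge (k + 2) (Fintype.card K) with h4 | h4
    · refine Pool.Agent.Helper31.RN.dual (k := Fintype.card K - k) (k' := k) (by omega) (by omega)
        (by omega) (fun B hB hBc => ?_) A hA hAc
      exact Pool.Agent.Helper31.RN.arc_rational (ℓ := ℓ) (by omega) (by omega) (by omega) B hB hBc
    · obtain ⟨N, -, hN⟩ := exists_threshold (K := K) h3 hk
      exact (hN (Fintype.card K) hk.le).mpr (Or.inl h4) A hA hAc

end Pool.Agent.Results.MP_8a9ebc_co.ArcsOfSizeQ
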