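import Mathlib
import Pool.Agent.Helper98.NRC.Half

/-!
# The number of normal rational curves through an arc

The definitions (`IsArc`, `stdNRC`, `IsNRC`) are in `Pool/Agent/Helper98/NRC/Basic.lean`.
-/

open scoped LinearAlgebra.Projectivization

namespace Pool.Agent.Results.MP_8a9ebc_co.CurvesThroughArcs

open Pool.Agent.Helper98.NRC

theorem descFactorial_eq (q k : ℕ) (hk : 2 ≤ k) :
    (q - 2).descFactorial (k - 2) = ∏ i ∈ Finset.Ico 2 k, (q - i) := by
  rw [Nat.descFactorial_eq_prod_range, Finset.prod_Ico_eq_prod_range]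
  refine Finset.prod_congr rfl fun i _ => ?_
  omega

/-- Let `q = |K|`, `k ≥ 3`, `q > k`.  The number of normal rational curves of `PG(k-1, q)` through
a given `n`-arc is
`(q-1)^{k-1} (q-2)(q-3)⋯(q-k+2)` for `n = k`, `(q-2)(q-3)⋯(q-k+1)` for `n = k+1`, `1` for
`n = k+2`, and `1` for every arc with `n ≥ k+3` points that lies on some normal rational curve. -/
theorem result (K : Type*) [Field K] [Fintype K] (k : ℕ) (h3 : 3 ≤ k) (hq : k < Fintype.card K) :
    (∀ A : Set (ℙ K (Fin k → K)), IsArc A → A.ncard = k →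
      {C : Set (ℙ K (Fin k → K)) | IsNRC C ∧ A ⊆ C}.ncard =
        (Fintype.card K - 1) ^ (k - 1) * ∏ i ∈ Finset.Ico 2 (k - 1), (Fintype.card K - i)) ∧
    (∀ A : Set (ℙ K (Fin k → K)), IsArc A → A.ncard = k + 1 →
      {C : Set (ℙ K (Fin k → K)) | IsNRC C ∧ A ⊆ C}.ncard =
        ∏ i ∈ Finset.Ico 2 k, (Fintype.card K - i)) ∧
    (∀ A : Set (ℙ K (Fin k → K)), IsArc A → A.ncard = k + 2 →
      {C : Set (ℙ K (Fin k → K)) | IsNRC C ∧ A ⊆ C}.ncard = 1) ∧
    (∀ A : Set (ℙ K (Fin k → K)), IsArc A → k + 3 ≤ A.ncard →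
      (∃ C : Set (ℙ K (Fin k → K)), IsNRC C ∧ A ⊆ C) →
      {C : Set (ℙ K (Fin k → K)) | IsNRC C ∧ A ⊆ C}.ncard = 1) := by
  refine ⟨fun A hA hn => ?_, fun A hA hn => ?_, fun A hA hn => ?_, fun A hA hn hC => ?_⟩
  · rw [← descFactorial_eq _ (k - 1) (by omega), show k - 1 - 2 = k - 3 by omega]
    exact count_k h3 hq A hA hn
  · rw [← descFactorial_eq _ k (by omega)]
    exact count_k1 h3 hq A hA hn
  · have h1 := NN_subsingleton h3 hq A hA hn.ge
    have h2 := exists_k2 h3 A hA hn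
    exact le_antisymm h1 (Nat.one_le_iff_ne_zero.mpr h2)
  · have h1 := NN_subsingleton h3 hq A hA (by omega)
    refine le_antisymm h1 ?_
    rw [Nat.one_le_iff_ne_zero]
    have hne : (NN A).Nonempty := hC
    exact (Set.ncard_pos (Set.toFinite _)).mpr hne |>.ne'

end Pool.Agent.Results.MP_8a9ebc_co.CurvesThroughArcs
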