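import Mathlib
import Pool.Agent.Helper98.NRC.Half

/-!
# For which sizes is every arc rational?

The definitions (`IsArc`, `stdNRC`, `IsNRC`) are in `Pool/Agent/Helper98/NRC/Basic.lean`.
-/

open scoped LinearAlgebra.Projectivization

namespace Pool.Agent.Results.MP_8a9ebc_co.RationalArcSizes

open Pool.Agent.Helper98.NRC

/-- Let `q = |K|`, `k ≥ 3`, `q > k`.  There is a threshold `N` with `N ≥ k + 3`,
`N ≥ ⌊q/2⌋ + 3`, and, for `q` even, `N ≥ k + 4` and (if `k = 3`) `N ≥ q + 3`, such that for all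
`n ≥ k`: every `n`-arc of `PG(k-1, q)` is contained in a normal rational curve if and only if
`n ≤ k + 2` or `n ≥ N`. -/
theorem result (K : Type*) [Field K] [Fintype K] (k : ℕ) (h3 : 3 ≤ k) (hq : k < Fintype.card K) :
    ∃ N, k + 3 ≤ N ∧ Fintype.card K / 2 + 3 ≤ N ∧
      (Even (Fintype.card K) → k + 4 ≤ N ∧ (k = 3 → Fintype.card K + 3 ≤ N)) ∧
      ∀ n, k ≤ n →
        ((∀ A : Set (ℙ K (Fin k → K)), IsArc A → A.ncard = n →
            ∃ C : Set (ℙ K (Fin k → K)), IsNRC C ∧ A ⊆ C) ↔ n ≤ k + 2 ∨ N ≤ n) := by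
  obtain ⟨N, hN, h⟩ := exists_threshold (K := K) h3 hq
  have key : ∀ n, k + 3 ≤ n → (∃ A : Set (ℙ K (Fin k → K)), IsArc A ∧ A.ncard = n ∧
      ¬ ∃ C : Set (ℙ K (Fin k → K)), IsNRC C ∧ A ⊆ C) → n < N := by
    intro n hn hex
    by_contra hlt
    obtain ⟨A, hA, hAn, hAC⟩ := hex
    exact hAC ((h n (by omega)).mpr (Or.inr (not_lt.mp hlt)) A hA hAn)
  refine ⟨N, hN, ?_, ?_, h⟩
  · rcases Nat.lt_or_ge (Fintype.card K / 2 + 2) (k + 3) with h4 | h4
    · omega
    · exact key _ h4 (nonrat_half h3 hq _ h4 le_rfl)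
  · intro he
    have h2 := two_eq_zero_of_even he
    refine ⟨key _ le_rfl (nonrat_even_k3 h3 hq h2), ?_⟩
    rintro rfl
    exact key _ (by omega) (nonrat_plane hq h2 _ (by omega) le_rfl)

end Pool.Agent.Results.MP_8a9ebc_co.RationalArcSizes
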